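import Pool.Agent.helper82.LEQ.Spec

/-!
# Row lq:DJ: decomposition of `N'`
-/

set_option autoImplicit false

namespace LEQ

open QS (Lef EAb)

/-- the product of two subgroups which commute elementwise -/
def DJ_prod {G : Type} [Group G] (A B : Subgroup G) (h : ∀ a ∈ A, ∀ b ∈ B, a * b = b * a) : Subgroup G where
  carrier := {x | ∃ a ∈ A, ∃ b ∈ B, x = a * b}
  one_mem' := ⟨1, A.one_mem, 1, B.one_mem, (one_mul 1).symm⟩
  mul_mem' := by
    rintro x y ⟨a, ha, b, hb, rfl⟩ ⟨a', ha', b', hb', rfl⟩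
    refine ⟨a * a', A.mul_mem ha ha', b * b', B.mul_mem hb hb', ?_⟩
    have := h a' ha' b hb
    calc a * b * (a' * b') = a * (b * a') * b' := by group
      _ = a * (a' * b) * b' := by rw [this]
      _ = a * a' * (b * b') := by group
  inv_mem' := by
    rintro x ⟨a, ha, b, hb, rfl⟩
    refine ⟨a⁻¹, A.inv_mem ha, b⁻¹, B.inv_mem hb, ?_⟩
    rw [mul_inv_rev, h a⁻¹ (A.inv_mem ha) b⁻¹ (B.inv_mem hb)]

theorem DJ_sup {G : Type} [Group G] (A B : Subgroup G) (h : ∀ a ∈ A, ∀ b ∈ B, a * b = b * a) (x : G)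
    (hx : x ∈ A ⊔ B) : ∃ a ∈ A, ∃ b ∈ B, x = a * b := by
  have h1 : A ⊔ B ≤ DJ_prod A B h := by
    refine sup_le (fun a ha => ?_) (fun b hb => ?_)
    · exact ⟨a, ha, 1, B.one_mem, (mul_one a).symm⟩
    · exact ⟨1, A.one_mem, b, hb, (one_mul b).symm⟩
  exact h1 hx

theorem DJ_comm {G : Type} [Group G] {ι : Type} (L : ι → Subgroup G) (J : Set ι) (b : G)
    (hb : ∀ j ∈ J, ∀ z ∈ L j, b * z = z * b) : ∀ a ∈ NJ L J, a * b = b * a := by
  have h1 : NJ L J ≤ Subgroup.centralizer {b} := by
    refine iSup₂_le fun j hj a ha => ?_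
    rw [Subgroup.mem_centralizer_iff]
    intro y hy
    rw [Set.mem_singleton_iff] at hy
    rw [hy]
    exact hb j hj a ha
  intro a ha
  have h2 := Subgroup.mem_centralizer_iff.1 (h1 ha) b rfl
  exact h2.symm

theorem DJ (hAC : AC_stmt) : DJ_stmt := by
  classical
  intro G _ _ p hp ι _ L hF
  obtain ⟨hAct, hUni, hMul, hL, hC, -, hOne⟩ := hAC G p hp ι L hF
  have hNJ : ∀ J : Set ι, NJ L J ≤ Np L := fun J => iSup₂_le fun j _ a ha => (hL j a ha).2.1
  -- components outside J
  have hout : ∀ J : Set ι, ∀ h ∈ NJ L J, ∀ i, i ∉ J → pr L i h = 1 := by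
    intro J h hh i hi
    have h1 : NJ L J ≤ BJ L {i} := by
      refine iSup₂_le fun j hj a ha => ?_
      refine ⟨(hL j a ha).2.1, ?_⟩
      intro k hk z hz
      rw [Set.mem_singleton_iff] at hk
      rw [hk] at hz
      have hji : j ≠ i := by
        rintro rfl
        exact hi hj
      exact hF.comm j i hji a ha z hz
    have h2 := h1 hh
    exact (hOne i h h2.1).2 (h2.2 i rfl)
  -- the supremum with one more index
  have hins : ∀ (i : ι) (J : Set ι), NJ L (insert i J) = L i ⊔ NJ L J := by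
    intro i J
    unfold NJ
    exact iSup_insert
  have hcomm : ∀ (i : ι) (J : Set ι), i ∉ J → ∀ a ∈ L i, ∀ b ∈ NJ L J, a * b = b * a := by
    intro i J hi a ha b hb
    refine (DJ_comm L J a ?_ b hb).symm
    intro j hj z hz
    have hji : i ≠ j := by
      rintro rfl
      exact hi hj
    exact hF.comm i j hji a ha z hz
  -- elements with trivial components
  have htriv : ∀ J : Set ι, J.Finite → ∀ h ∈ NJ L J, (∀ j ∈ J, pr L j h = 1) → h = 1 := by
    intro J hJ
    induction J, hJ using Set.Finite.induction_on with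
    | empty =>
      intro h hh _
      have e : NJ L (∅ : Set ι) = ⊥ := by
        unfold NJ
        simp
      rw [e] at hh
      exact Subgroup.mem_bot.1 hh
    | @insert i J hi _ ih =>
      intro h hh h1
      rw [hins] at hh
      obtain ⟨a, ha, b, hb, rfl⟩ := DJ_sup _ _ (hcomm i J hi) h hh
      have haN := (hL i a ha).2.1
      have hbN := hNJ J hb
      have h2 := h1 i (Set.mem_insert i J)
      rw [hMul i a haN b hbN, (hL i a ha).1, hout J b hb i hi, mul_one] at h2
      rw [h2, one_mul]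
      refine ih b hb fun j hj => ?_
      have h3 := h1 j (Set.mem_insert_of_mem i hj)
      rwa [h2, one_mul] at h3
  -- elements with given components
  have hex : ∀ g ∈ Np L, ∀ J : Set ι, J.Finite → ∃ h ∈ NJ L J, ∀ j ∈ J, pr L j h = pr L j g := by
    intro g hg J hJ
    induction J, hJ using Set.Finite.induction_on with
    | empty => exact ⟨1, Subgroup.one_mem _, fun j hj => absurd hj (Set.notMem_empty j)⟩
    | @insert i J hi _ ih =>
      obtain ⟨h, hh, h1⟩ := ih
      have hgi : pr L i g ∈ L i := (hAct i g hg).1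
      refine ⟨pr L i g * h, ?_, ?_⟩
      · rw [hins]
        exact Subgroup.mul_mem_sup hgi hh
      · intro j hj
        rw [hMul j _ (hL i _ hgi).2.1 _ (hNJ J hh)]
        rcases Set.mem_insert_iff.1 hj with rfl | hj'
        · rw [(hL j _ hgi).1, hout J h hh j hi, mul_one]
        · have hji : j ≠ i := by
            rintro rfl
            exact hi hj'
          rw [(hL i _ hgi).2.2 j hji, one_mul, h1 j hj']
  refine ⟨fun J => ⟨⟨?_, ?_⟩, ?_⟩, hout, ?_⟩
  · intro a ha b hb
    exact DJ_comm L J b hb.2 a ha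
  · rw [eq_bot_iff]
    intro h hh
    obtain ⟨h1, h2⟩ := Subgroup.mem_inf.1 hh
    rw [Subgroup.mem_bot]
    exact htriv J (Set.toFinite J) h h1 fun j hj => (hOne j h h2.1).2 (h2.2 j hj)
  · apply le_antisymm
    · exact sup_le (hNJ J) fun g hg => hg.1
    · intro g hg
      obtain ⟨h, hh, h1⟩ := hex g hg J (Set.toFinite J)
      have hhN := hNJ J hh
      have hk : h⁻¹ * g ∈ Np L := (Np L).mul_mem ((Np L).inv_mem hhN) hg
      have hkB : h⁻¹ * g ∈ BJ L J := by
        refine ⟨hk, fun j hj => ?_⟩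
        refine (hOne j _ hk).1 ?_
        have h2 := hMul j h hhN (h⁻¹ * g) hk
        rw [mul_inv_cancel_left, h1 j hj] at h2
        exact (mul_eq_left.1 h2.symm)
      have h3 : g = h * (h⁻¹ * g) := (mul_inv_cancel_left h g).symm
      rw [h3]
      exact Subgroup.mul_mem_sup hh hkB
  · ext g
    constructor
    · intro hg i z hz
      exact hg.2 i (Set.mem_univ i) z hz
    · intro hg
      exact ⟨(hC g hg).1, fun j _ z hz => hg j z hz⟩

end LEQ
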