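import Pool.Agent.helper82.LEQ.Spec

/-!
# Row lq:XK: conical contraction
-/

set_option autoImplicit false

namespace LEQ

open QS (Lef EAb)

theorem XK (h1 : XR_stmt) (h2 : XO_stmt) : XK_stmt := by
  classical
  intro α _ _ P a f
  -- outer induction
  have main : ∀ n : ℕ, ∀ (P : α → Prop) (a : α), (FS P).card = n → P a →
      (∀ y, P y → P (f y)) → (∀ y, P y → f y ≤ y) → (∀ y, P y → f y ≤ a) →
      (∀ y y', P y → P y' → y ≤ y' → f y ≤ f y') → XS P = 0 := by
    intro n
    induction n using Nat.strong_induction_on with
    | _ n ih =>
      intro P a hn ha hP hle hla hmono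
      -- inner induction
      have inner : ∀ k : ℕ, ∀ S : α → Prop, (FS (fun y => S y ∧ ¬ y ≤ a)).card = k →
          (∀ y, S y → P y) → (∀ y, P y → y ≤ a → S y) →
          (∀ y y', S y → P y' → y' ≤ y → S y') → XS S = XS (fun y => P y ∧ y ≤ a) := by
        intro k
        induction k with
        | zero =>
          intro S hk hS1 hS2 _
          have e : S = fun y => P y ∧ y ≤ a := by
            funext y
            apply propext
            constructor
            · intro hy
              refine ⟨hS1 y hy, ?_⟩
              by_contra hc
              have : y ∈ FS (fun y => S y ∧ ¬ y ≤ a) := mem_FS.2 ⟨hy, hc⟩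
              rw [Finset.card_eq_zero.1 hk] at this
              exact absurd this (Finset.notMem_empty y)
            · rintro ⟨hy1, hy2⟩
              exact hS2 y hy1 hy2
          rw [e]
        | succ k ihk =>
          intro S hk hS1 hS2 hS3
          have hne : (FS (fun y => S y ∧ ¬ y ≤ a)).Nonempty := by
            rw [← Finset.card_pos, hk]
            exact Nat.succ_pos k
          obtain ⟨y, hy, hmax⟩ := Finset.exists_maximal hne
          · obtain ⟨hyS, hya⟩ := mem_FS.1 hy
            have hx := h1 α S y hyS
            -- the lower link
            have hfy : f y < y := by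
              refine lt_of_le_of_ne (hle y (hS1 y hyS)) ?_
              intro h
              apply hya
              rw [← h]
              exact hla y (hS1 y hyS)
            have hlow : XS (fun z => S z ∧ z < y) = 0 := by
              refine ih _ ?_ (fun z => S z ∧ z < y) (f y) rfl ?_ ?_ ?_ ?_ ?_
              · rw [← hn]
                apply Finset.card_lt_card
                refine ⟨fun z hz => mem_FS.2 (hS1 z (mem_FS.1 hz).1), fun h => ?_⟩
                have := mem_FS.1 (h (mem_FS.2 (hS1 y hyS)))
                exact lt_irrefl _ this.2
              · exact ⟨hS3 y _ hyS (hP y (hS1 y hyS)) hfy.le, hfy⟩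
              · rintro z ⟨hz1, hz2⟩
                exact ⟨hS3 z _ hz1 (hP z (hS1 z hz1)) (hle z (hS1 z hz1)),
                  lt_of_le_of_lt (hle z (hS1 z hz1)) hz2⟩
              · rintro z ⟨hz1, _⟩
                exact hle z (hS1 z hz1)
              · rintro z ⟨hz1, hz2⟩
                exact hmono z y (hS1 z hz1) (hS1 y hyS) hz2.le
              · rintro z z' ⟨hz1, _⟩ ⟨hz1', _⟩ h
                exact hmono z z' (hS1 z hz1) (hS1 z' hz1') h
            rw [hlow, zero_mul, add_zero] at hx
            rw [hx]
            apply ihk
            · have e : FS (fun z => (S z ∧ z ≠ y) ∧ ¬ z ≤ a) = (FS (fun z => S z ∧ ¬ z ≤ a)).erase y := by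
                ext z
                rw [Finset.mem_erase, mem_FS, mem_FS]
                tauto
              rw [e, Finset.card_erase_of_mem hy, hk]
              rfl
            · rintro z ⟨hz1, _⟩
              exact hS1 z hz1
            · intro z hz1 hz2
              refine ⟨hS2 z hz1 hz2, ?_⟩
              rintro rfl
              exact hya hz2
            · rintro z z' ⟨hz1, hz2⟩ hz' hzz'
              refine ⟨hS3 z z' hz1 hz' hzz', ?_⟩
              rintro rfl
              have hza : ¬ z ≤ a := fun h => hya (hzz'.trans h)
              have h3 : z ∈ FS (fun y => S y ∧ ¬ y ≤ a) := mem_FS.2 ⟨hz1, hza⟩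
              exact hz2 (le_antisymm (hmax h3 hzz') hzz')
      rw [inner _ P rfl (fun y hy => hy) (fun y hy _ => hy) (fun y y' _ hy' _ => hy')]
      exact h2 α (fun y => P y ∧ y ≤ a) a ⟨ha, le_rfl⟩ (fun y hy => hy.2)
  intro ha hP hle hla hmono
  exact main _ P a rfl ha hP hle hla hmono

end LEQ
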